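import Pool.Agent.R763.KO.Asm
import Pool.Agent.R763.KO.KO1
import Pool.Agent.R763.KO.KO2
import Pool.Agent.R763.KO.S3
import Pool.Agent.R763.KO.KO4

/-!
# Tangential speed of parabolic semigroups of positive hyperbolic step

A parabolic semigroup of positive hyperbolic step whose tangential speed is at most
`(1/4) log t + O(1)`, so that it is not at bounded distance from `(1/2) log t`.

The Koenigs domain is the half `{x > 0, y > x² / (4 π²) - π²}` of the inside of a parabola.

Definitions (in `Pool.Agent.R763.KO.Stm`): `D` is the open unit disc, `omega` its hyperbolic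
distance, `IsSemigroup` a non-elliptic semigroup of holomorphic self-maps, `IsDW φ τ` says that `τ`
is its Denjoy-Wolff point, `IsKoenigs φ h` says that `h` is a univalent Koenigs function with
`⋃_{t ≥ 0} (h(D) - i t)` equal to the right half-plane, `vT φ τ t` is the hyperbolic distance of
`φ_t(0)` from the diameter `(-1, 1) τ`.
-/

set_option autoImplicit false

open Pool.Agent.R763.KO

namespace Pool.Agent.Results.MP_ab13d2_an.TangentialSpeed

/-- There is a parabolic semigroup of positive hyperbolic step (the domains `h(D) - i t` fill the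
right half-plane) with `v^T(t) ≤ (1/4) log t + C` for `t ≥ 1`; hence `|v^T(t) - (1/2) log t|` is
not bounded on `[1, ∞)`. -/
theorem result : ∃ (φ : ℝ → ℂ → ℂ) (h : ℂ → ℂ) (τ : ℂ),
    IsSemigroup φ ∧ IsDW φ τ ∧ IsKoenigs φ h ∧
      (∃ C : ℝ, ∀ t : ℝ, 1 ≤ t → vT φ τ t ≤ (1 / 4) * Real.log t + C) ∧
      ¬ ∃ C : ℝ, ∀ t : ℝ, 1 ≤ t → |vT φ τ t - (1 / 2) * Real.log t| < C :=
  asm (KO2.t2 KO1.main) S3.t_S3 KO4.s4

end Pool.Agent.Results.MP_ab13d2_an.TangentialSpeed
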